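import Pool.Agent.helper5.SYM.SpecB

/-!
# Row sy:BG1: the count for an involution is a coefficient of `B2`
-/

set_option autoImplicit false
set_option linter.unusedVariables false

namespace Pool.Agent.SYM
open Finset CT Polynomial

theorem BG1_Lab {W : Type} (C : Finset (W × Fin 4)) (J K Z : Finset W) (γ : W × Fin 4 → ZMod 2)
    (hC : ∀ c ∈ C, γ c = 1) (hJ : ∀ j ∈ J, γ (j, 0) = 1) (e : W × Fin 4 → W × Fin 4)
    (α : W × Fin 4 → ZMod 2) (t : W → Fin 3) (ζ : W → ZMod 2) (Φ : W × Fin 4 → ZMod 2 → Bool) :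
    LabK C J K Z γ e α t ζ Φ ↔ LabK C J K Z (fun _ => 1) e α t ζ Φ := by
  unfold LabK
  constructor
  · rintro ⟨h1, h2, h3, h4, h5⟩
    refine ⟨h1, fun c hc => ?_, fun j hj => ?_, h4, h5⟩
    · rw [← hC c hc]
      exact h2 c hc
    · have h6 := h3 j hj
      rw [hJ j hj] at h6
      exact h6
  · rintro ⟨h1, h2, h3, h4, h5⟩
    refine ⟨h1, fun c hc => ?_, fun j hj => ?_, h4, h5⟩
    · rw [hC c hc]
      exact h2 c hc
    · rw [hJ j hj]
      exact h3 j hj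

theorem BG1_Om {W : Type} [Fintype W] [DecidableEq W] (C : Finset (W × Fin 4))
    (J K Z : Finset W) (γ : W × Fin 4 → ZMod 2)
    (hC : ∀ c ∈ C, γ c = 1) (hJ : ∀ j ∈ J, γ (j, 0) = 1) :
    (Om C J K Z γ : (W × Fin 4 → W × Fin 4) → (W × Fin 4 → ZMod 2) → (ZMod 2)[X]) =
      Om C J K Z (fun _ => 1) := by
  funext e α
  unfold Om
  refine Finset.sum_congr rfl fun t _ => Finset.sum_congr rfl fun ζ _ => ?_
  have h1 : LK C J K Z γ e α t ζ = LK C J K Z (fun _ => 1) e α t ζ := by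
    unfold LK
    rw [Nat.card_congr (Equiv.subtypeEquivRight fun Φ => BG1_Lab C J K Z γ hC hJ e α t ζ Φ)]
  rw [h1]

theorem BG1_O2 (g : ZMod 2) (h : g ∈ O2 (ZMod 2)) : g = 1 := by
  have h2 : ∀ h : ZMod 2, h = 0 ∨ h = 1 := by decide
  exact (h2 g).resolve_left h.1

theorem BG1 (hNB1 : NB1_stmt) (hFRD : FRD_stmt) (hQUO : QUO_stmt) (hADM : ADM_stmt)
    (hGPA : GPA_stmt) (hYF1 : YF1_stmt) (hCNT : CNT_stmt) : BG1_stmt := by
  intro V _ _ _ G σ h4 hσ
  obtain ⟨R, J, K, κ, hD, hJ, hK, hR, hR1⟩ := hNB1 V G σ h4 hσ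
  have hFin : Fintype G.Dart := by
    classical
    exact inferInstance
  have hF := hFRD V (ZMod 2) G (th σ) R J K (fun _ => 1) κ hD
  obtain ⟨e, α, C, γ', hQ⟩ := hQUO V G.Dart (ZMod 2) _ _ _ _ _ hF
  have hA := hADM V (ZMod 2) G (th σ) R J K (fun _ => 1) κ e α C γ' hD hQ
  obtain ⟨hC1, hC2⟩ := hCNT V G σ R J K κ e α C γ' h4 hσ hD hQ
  obtain ⟨y1, y2, y3, y4⟩ := hYF1 V G σ hσ
  refine ⟨R, J, K, C, e, α, hJ, hK, hR, hR1, hC1, hC2, hA, fun τ₀ hτ₀ hi k => ?_⟩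
  have h := hGPA V (ZMod 2) G (th σ) R J K ∅ (fun _ => 1) κ τ₀ e α C γ' hD hτ₀
    ((y3 τ₀).2 hi) hQ (Finset.empty_subset K) k
  rw [Finset.image_empty, BG1_Om C (J.image l0) (K.image l0) ∅ (gm (fun _ => 1) γ')
    (fun c hc => by
      obtain ⟨c1, c2⟩ := hQ.capv c hc
      unfold gm
      rw [if_neg (by rw [c1]; decide)]
      exact BG1_O2 _ c2)
    (fun j hj => by
      obtain ⟨v, -, rfl⟩ := Finset.mem_image.1 hj
      unfold gm l0
      rw [if_pos rfl])] at h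
  unfold B2
  rw [← h]
  congr 1
  refine Nat.card_congr (Equiv.subtypeEquivRight fun τ => ?_)
  have e1 : (fun d : G.Dart => ¬ Yf (th σ) d ∨ d.fst ∈ (∅ : Finset V)) =
      fun d : G.Dart => sd σ d = d := by
    funext d
    apply propext
    rw [y1 d, not_not]
    constructor
    · rintro (h | h)
      · exact h
      · exact absurd h (Finset.notMem_empty _)
    · exact Or.inl
  rw [e1, y3 τ]
  have e2 : (∀ d, ¬ Yf (th σ) d → τ d = τ₀ d) ↔ ∀ d, sd σ d = d → τ d = τ₀ d :=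
    forall_congr' fun d => by rw [y1 d, not_not]
  rw [e2]

end Pool.Agent.SYM
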