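import Pool.Agent.helper5.SYM.SpecA

/-!
# Row sy:EV3: no fixed darts, the coefficient of `X ^ 3`
-/

set_option autoImplicit false
set_option linter.unusedVariables false

namespace Pool.Agent.SYM
open Finset CT Polynomial

theorem EV3_wA (h : ZMod 2) : wA h = 1 ↔ (AddMonoidHom.id (ZMod 2)) h = 1 := by
  have h2 : ∀ h : ZMod 2, h = 0 ∨ h = 1 := by decide
  unfold wA
  rw [AddMonoidHom.id_apply, Nat.card_zmod]
  rcases h2 h with rfl | rfl
  · rw [addOrderOf_zero]
    decide
  · rw [ZMod.addOrderOf_one]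
    decide

theorem EV3_NL {W : Type} [DecidableEq W] (L : List W) (e : W × Fin 4 → W × Fin 4) :
    NL (fun _ => 0) L e = 0 := by
  induction L generalizing e with
  | nil => rfl
  | cons u L ih =>
    unfold NL
    refine Finset.sum_eq_zero fun t _ => ?_
    split_ifs
    · exact ih _
    · rfl

theorem EV3_SA (hSMA : SMA_stmt) {W A : Type} [DecidableEq W] [AddCommGroup A]
    (Ω Ω' : (W × Fin 4 → W × Fin 4) → (W × Fin 4 → A) → (ZMod 2)[X]) (E : Finset (W × Fin 4))
    (hΩ : ∀ e' α', Act E e' → Vol e' α' → Ω e' α' = X * Ω' e' α') (L : List W) :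
    ∀ (e : W × Fin 4 → W × Fin 4) (α : W × Fin 4 → A), L.Nodup → (∀ x ∈ E, x.1 ∉ L) →
    Act (dts L.toFinset ∪ E) e → Vol e α → SA Ω L e α = X * SA Ω' L e α := by
  induction L with
  | nil =>
    intro e α _ _ hact hvol
    unfold SA
    apply hΩ e α _ hvol
    have h1 : dts (List.toFinset ([] : List W)) ∪ E = E := by
      unfold dts
      rw [List.toFinset_nil, Finset.empty_product, Finset.empty_union]
    rwa [h1] at hact
  | cons u L ih =>
    intro e α hnd hE hact hvol
    rw [List.nodup_cons] at hnd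
    unfold SA
    rw [Finset.mul_sum]
    refine Finset.sum_congr rfl fun t _ => ?_
    rw [List.toFinset_cons] at hact
    obtain ⟨h1, h2⟩ := hSMA W A L.toFinset E e α u t (by rw [List.mem_toFinset]; exact hnd.1)
      (fun x hx h => hE x hx (by rw [h]; exact List.mem_cons_self)) hact hvol
    rw [ih _ _ hnd.2 (fun x hx h => hE x hx (List.mem_cons_of_mem _ h)) h1 h2]
    ring

theorem EV3_Ed {W : Type} [DecidableEq W] (C : Finset (W × Fin 4)) (J : Finset W) :
    Ed C J ∅ = C ∪ jd J := by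
  unfold Ed
  rw [Finset.empty_product, Finset.union_empty]

theorem EV3_jd {W : Type} [DecidableEq W] {J : Finset W} {x : W × Fin 4} :
    x ∈ jd J ↔ x.1 ∈ J ∧ (x.2 = 0 ∨ x.2 = 1) := by
  unfold jd
  rw [Finset.mem_product, Finset.mem_insert, Finset.mem_singleton]

theorem EV3_card {W : Type} [DecidableEq W] (J : Finset W) : (jd J).card = 2 * J.card := by
  unfold jd
  rw [Finset.card_product, mul_comm]
  rfl

theorem EV3 (hWT : WT_stmt) (hSMA : SMA_stmt) (hSC0 : SC0_stmt) (hSC1 : SC1_stmt)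
    (hNLC : NLC_stmt) (hS60 : S60_stmt) (hF14 : F14_stmt) (hF12 : F12_stmt)
    (hEVB : EVB_stmt) : EV3_stmt := by
  intro W _ _ L C J e α hA hc
  obtain ⟨heven, hB⟩ := hEVB W L C J ∅ e α hA
  rw [Finset.card_empty, Nat.add_zero] at heven hB
  have hEd := EV3_Ed C J
  have hact : Act (dts L.toFinset ∪ (C ∪ jd J)) e := by rw [← hEd]; exact hA.act
  have hE : ∀ x ∈ C ∪ jd J, x.1 ∉ L := by
    intro x hx
    rcases Finset.mem_union.1 hx with hx | hx
    · exact (hA.dC x hx).1
    · exact hA.dJ _ (EV3_jd.1 hx).1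
  have hdis : Disjoint C (jd J) := by
    rw [Finset.disjoint_left]
    intro x hx hx'
    exact (hA.dC x hx).2.1 (EV3_jd.1 hx').1
  have hcard : (C ∪ jd J).card = C.card + 2 * J.card := by
    rw [Finset.card_union_of_disjoint hdis, EV3_card]
  obtain ⟨w, hwL, hwJ, -, hwC⟩ := hA.spare
  have hp : ∀ i : Fin 4, ((w, i) : W × Fin 4) ∉ C ∪ jd J := by
    intro i hi
    rcases Finset.mem_union.1 hi with hi | hi
    · exact hwC _ hi rfl
    · exact hwJ (EV3_jd.1 hi).1
  have hpq : ((w, 0) : W × Fin 4) ≠ (w, 1) := by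
    intro h
    have h1 : (0 : Fin 4) = 1 := congrArg Prod.snd h
    exact absurd h1 (by decide)
  rw [hB, coeff_X_pow_mul']
  rcases hc with h4 | ⟨h3, hJ2, hL⟩ | ⟨hJ0, hC4, hL⟩ | ⟨hJ1, hC0, hL⟩
  · rw [if_neg (by omega)]
  · rw [if_pos (by omega), h3, Nat.sub_self]
    rw [hSC0 W (ZMod 2) (fun e' _ => X ^ so J e') (fun e' => if so J e' = 0 then 1 else 0) L
      (C ∪ jd J) e α hA.nd hE hact hA.vol (by
        intro e' α' _ _
        rw [coeff_X_pow]
        simp only [eq_comm])]
    exact hS60 W L C J e hA.nd (fun c hc => (hA.dC c hc).1) hA.dJ hdis (by omega) hJ2 hL hact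
  · have hJ : J = ∅ := Finset.card_eq_zero.1 hJ0
    have hk : J.card + C.card / 2 = 2 := by omega
    rw [if_pos (by omega), hk]
    show (SA (fun e' _ => X ^ so J e') L e α).coeff 1 = 0
    rw [hSC1 W (ZMod 2) (fun e' _ => X ^ so J e') 1 (fun _ => 0) (AddMonoidHom.id (ZMod 2)) L
      (C ∪ jd J) e α EV3_wA hA.nd hE hact hA.vol (by
        intro e' α' _ _
        have h1 : so J e' = 0 := by
          unfold so
          rw [hJ, Finset.filter_empty, Finset.card_empty]
        rw [h1, pow_zero]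
        exact ⟨coeff_one_zero, by rw [coeff_one]; rfl⟩), EV3_NL, add_zero, one_mul]
    exact hF14 W L (C ∪ jd J) e _ (w, 0) (w, 1) hA.nd hE (by omega) hL hact hA.vol hwL hwL
      (hp 0) (hp 1) hpq
  · obtain ⟨j, hj⟩ := Finset.card_eq_one.1 hJ1
    have hC : C = ∅ := Finset.card_eq_zero.1 hC0
    have hk : J.card + C.card / 2 = 1 := by omega
    rw [if_pos (by omega), hk]
    show (SA (fun e' _ => X ^ so J e') L e α).coeff 2 = 0
    have hso : ∀ e', Act (C ∪ jd J) e' → so J e' = 1 := by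
      intro e' he'
      have h1 : e' (j, 0) = (j, 1) := by
        have hmem : ∀ x, x ∈ C ∪ jd J ↔ x = (j, 0) ∨ x = (j, 1) := by
          intro x
          rw [hC, Finset.empty_union, EV3_jd, hj, Finset.mem_singleton, Prod.ext_iff,
            Prod.ext_iff]
          tauto
        have h2 : e' (j, 0) ≠ (j, 0) := (he'.2 _).2 ((hmem _).2 (Or.inl rfl))
        have h3 : e' (e' (j, 0)) ≠ e' (j, 0) := by
          rw [he'.1]
          exact fun h => h2 h.symm
        have h4 := (hmem _).1 ((he'.2 _).1 h3)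
        exact h4.resolve_left h2
      unfold so
      rw [hj, Finset.filter_singleton, if_pos h1, Finset.card_singleton]
    rw [EV3_SA hSMA (fun e' _ => X ^ so J e') (fun _ _ => 1) (C ∪ jd J) (by
      intro e' α' he' _
      rw [hso e' he', pow_one, mul_one]) L e α hA.nd hE hact hA.vol]
    show (X * SA (fun _ _ => 1) L e α).coeff (1 + 1) = 0
    rw [coeff_X_mul, hSC1 W (ZMod 2) (fun _ _ => 1) 1 (fun _ => 0) (AddMonoidHom.id (ZMod 2)) L
      (C ∪ jd J) e α EV3_wA hA.nd hE hact hA.vol (by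
        intro e' α' _ _
        exact ⟨coeff_one_zero, by rw [coeff_one]; rfl⟩), EV3_NL, add_zero, one_mul]
    exact hF12 W L (C ∪ jd J) e _ (w, 0) (w, 1) hA.nd hE (by omega) hL hact hA.vol hwL hwL
      (hp 0) (hp 1) hpq

end Pool.Agent.SYM
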