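import Pool.Agent.helper5.SYM.SpecB

/-!
# Row sy:FXC: a 2-group fixes a transition system with three circuits and one of its circuits
-/

set_option autoImplicit false
set_option linter.unusedVariables false

namespace Pool.Agent.SYM
open Finset CT Polynomial

theorem FXC_one {V : Type} {G : SimpleGraph V} (d : G.Dart) : sd (1 : G ≃g G) d = d := rfl

theorem FXC_mul {V : Type} {G : SimpleGraph V} (p q : G ≃g G) (d : G.Dart) :
    sd (p * q) d = sd p (sd q d) := rfl

theorem FXC_symm {V : Type} {G : SimpleGraph V} (p : G ≃g G) (d : G.Dart) :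
    sd p d.symm = (sd p d).symm := rfl

/-- the action on the circuits -/
def FXC_map {V : Type} {G : SimpleGraph V} {τ : G.Dart → G.Dart} (p : G ≃g G) (hp : Inv p τ) :
    Cir (fun d : G.Dart => d.symm) τ → Cir (fun d : G.Dart => d.symm) τ :=
  Quot.map (sd p) (by
    rintro d d' (h | h)
    · left
      rw [h]
      rfl
    · right
      rw [h]
      exact (hp d).symm)

theorem FXC (hCJI : CJI_stmt) (hEQP : EQP_stmt) : FXC_stmt := by
  classical
  intro V _ G P hP hodd
  have hfin : Finite (G ≃g G) :=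
    Finite.of_injective (fun σ : G ≃g G => (σ : V → V)) DFunLike.coe_injective
  have hfinP : Finite P := inferInstance
  have h1 := hEQP V P G P.subtype (fun τ => gav τ (fun _ => False) = 3) hP (fun p τ hτ => by
    have h2 := (hCJI V G (P.subtype p) τ).1 (fun _ => False)
    exact h2.trans hτ)
  have h2 : ((N3 G : ℕ) : ZMod 2) = 1 := ZMod.natCast_eq_one_iff_odd.2 hodd
  have h3 : ((Nat.card {τ : G.Dart → G.Dart // IsTS τ ∧ gav τ (fun _ => False) = 3 ∧
      ∀ p : P, Inv (P.subtype p) τ} : ℕ) : ZMod 2) = 1 := h1.symm.trans h2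
  have h4 : Nonempty {τ : G.Dart → G.Dart // IsTS τ ∧ gav τ (fun _ => False) = 3 ∧
      ∀ p : P, Inv (P.subtype p) τ} := by
    by_contra hcon
    rw [not_nonempty_iff] at hcon
    rw [Nat.card_of_isEmpty, Nat.cast_zero] at h3
    exact zero_ne_one h3
  obtain ⟨τ, hTS, hgav, hinv⟩ := h4
  let act : MulAction P (Cir (fun d : G.Dart => d.symm) τ) :=
    { smul := fun p c => FXC_map p.1 (hinv p) c
      one_smul := by
        rintro ⟨d⟩
        rfl
      mul_smul := by
        rintro p q ⟨d⟩
        rfl }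
  have hc : Nat.card (Cir (fun d : G.Dart => d.symm) τ) = 3 := by
    rw [← hgav]
    unfold gav nav
    refine (Nat.card_congr (Equiv.subtypeUnivEquiv fun c d hd => ?_)).symm
    exact absurd hd id
  have hfinC : Finite (Cir (fun d : G.Dart => d.symm) τ) :=
    Nat.finite_of_card_ne_zero (by rw [hc]; decide)
  obtain ⟨c, hc'⟩ := hP.nonempty_fixed_point_of_prime_not_dvd_card
    (Cir (fun d : G.Dart => d.symm) τ) (by rw [hc]; decide)
  obtain ⟨d₀, rfl⟩ := Quot.exists_rep c
  refine ⟨τ, d₀, hTS, fun p hp => hinv ⟨p, hp⟩, fun p hp => ?_⟩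
  exact hc' ⟨p, hp⟩

end Pool.Agent.SYM
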